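import Pool.Agent.K9h16.AE.Fej

/-!
The number of vectors with a short linear relation.
-/

set_option autoImplicit false

namespace Pool.Agent.K9h16.AE

open Finset

section

variable {p : ℕ} [Fact p.Prime]

/-- a hyperplane -/
lemma card_hyper {r : ℕ} (h : Fin r → ZMod p) (i0 : Fin r) (hi0 : h i0 ≠ 0) :
    (univ.filter fun e : Fin r → ZMod p => ∑ i, h i * e i = 0).card ≤ p ^ (r - 1) := by
  classical
  have h1 : (univ.filter fun e : Fin r → ZMod p => ∑ i, h i * e i = 0).card
      ≤ (univ : Finset ({i // i ≠ i0} → ZMod p)).card := by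
    apply card_le_card_of_injOn (fun e i => e i.1) (fun _ _ => mem_coe.mpr (mem_univ _))
    intro e he e' he' hee
    rw [mem_coe, mem_filter] at he he'
    have h2 : ∀ i, i ≠ i0 → e i = e' i := fun i hi => congrFun hee ⟨i, hi⟩
    have h3 : h i0 * e i0 = h i0 * e' i0 := by
      have h4 := he.2
      have h5 := he'.2
      rw [← add_sum_erase univ _ (mem_univ i0)] at h4 h5
      have h6 : ∑ i ∈ univ.erase i0, h i * e i = ∑ i ∈ univ.erase i0, h i * e' i :=
        sum_congr rfl fun i hi => by rw [h2 i (ne_of_mem_erase hi)]
      rw [h6] at h4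
      exact add_right_cancel (h4.trans h5.symm)
    funext i
    by_cases hi : i = i0
    · rw [hi]
      exact mul_left_cancel₀ hi0 h3
    · exact h2 i hi
  refine h1.trans (le_of_eq ?_)
  rw [card_univ, Fintype.card_fun, ZMod.card, Fintype.card_subtype_compl, Fintype.card_subtype_eq,
    Fintype.card_fin]

open Classical in
/-- the vectors with a short relation -/
noncomputable def bad (p : ℕ) [Fact p.Prime] (r K : ℕ) : Finset (Fin r → ZMod p) :=
  univ.filter fun e => ¬ NoRel K e

theorem card_bad (r K : ℕ) : (bad p r K).card ≤ (2 * K) ^ r * p ^ (r - 1) := by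
  classical
  rcases Nat.eq_zero_or_pos r with hr | hr
  · subst hr
    have : bad p 0 K = ∅ := by
      unfold bad
      rw [filter_eq_empty_iff]
      intro e _
      rw [not_not]
      intro h _ _
      exact Subsingleton.elim _ _
    rw [this, card_empty]
    exact Nat.zero_le _
  rcases Nat.eq_zero_or_pos K with hK | hK
  · subst hK
    have : bad p r 0 = ∅ := by
      unfold bad
      rw [filter_eq_empty_iff]
      intro e _
      rw [not_not]
      intro h hh _
      have := hh ⟨0, hr⟩
      simp only [Nat.cast_zero] at this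
      exact absurd this (not_lt.mpr (abs_nonneg _))
    rw [this, card_empty]
    exact Nat.zero_le _
  have hpp := (Fact.out : p.Prime).pos
  rcases Nat.lt_or_ge p K with hpK | hpK
  · calc (bad p r K).card ≤ (univ : Finset (Fin r → ZMod p)).card := card_le_univ _
      _ = p ^ r := by rw [card_univ, Fintype.card_fun, ZMod.card, Fintype.card_fin]
      _ = p * p ^ (r - 1) := by
          conv_lhs => rw [show r = (r - 1) + 1 from by omega, pow_succ, mul_comm]
      _ ≤ (2 * K) ^ r * p ^ (r - 1) := by
          apply Nat.mul_le_mul_right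
          calc p ≤ 2 * K := by omega
            _ = (2 * K) ^ 1 := (pow_one _).symm
            _ ≤ (2 * K) ^ r := Nat.pow_le_pow_right (by omega) hr
  · have hsub : bad p r K ⊆ ((Fintype.piFinset (fun _ : Fin r => Ioo (-(K : ℤ)) K)).filter
        (fun h => h ≠ 0)).biUnion
        (fun h => univ.filter fun e : Fin r → ZMod p => ∑ i, (h i : ZMod p) * e i = 0) := by
      intro e he
      unfold bad NoRel at he
      rw [mem_filter] at he
      have he2 := he.2
      push Not at he2
      obtain ⟨h, h1, h2, h3⟩ := he2
      rw [mem_biUnion]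
      refine ⟨h, ?_, ?_⟩
      · rw [mem_filter, Fintype.mem_piFinset]
        refine ⟨fun i => ?_, h3⟩
        rw [mem_Ioo]
        exact abs_lt.mp (h1 i)
      · rw [mem_filter]
        exact ⟨mem_univ _, h2⟩
    refine (card_le_card hsub).trans (card_biUnion_le.trans ?_)
    have h5 : ∀ h ∈ ((Fintype.piFinset (fun _ : Fin r => Ioo (-(K : ℤ)) K)).filter
        (fun h => h ≠ 0)),
        (univ.filter fun e : Fin r → ZMod p => ∑ i, (h i : ZMod p) * e i = 0).card
          ≤ p ^ (r - 1) := by
      intro h hh
      rw [mem_filter, Fintype.mem_piFinset] at hh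
      obtain ⟨i0, hi0⟩ : ∃ i0, h i0 ≠ 0 := by
        by_contra hcon
        push Not at hcon
        exact hh.2 (funext hcon)
      refine card_hyper (fun i => (h i : ZMod p)) i0 ?_
      intro h0
      rw [ZMod.intCast_zmod_eq_zero_iff_dvd] at h0
      have h6 := mem_Ioo.mp (hh.1 i0)
      have h7 := Int.le_of_dvd (abs_pos.mpr hi0) ((dvd_abs _ _).mpr h0)
      have h8 : |h i0| < K := abs_lt.mpr h6
      have : (K : ℤ) ≤ p := by exact_mod_cast hpK
      omega
    refine (sum_le_sum h5).trans ?_
    rw [sum_const, smul_eq_mul]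
    apply Nat.mul_le_mul_right
    refine (card_filter_le _ _).trans ?_
    rw [Fintype.card_piFinset]
    simp only [Int.card_Ioo, prod_const, card_univ, Fintype.card_fin]
    apply Nat.pow_le_pow_left
    omega

end

end Pool.Agent.K9h16.AE
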