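import Pool.Agent.K9h16.AE.Gen

/-!
The Tate conjecture for a covering, in terms of representations.
-/

set_option autoImplicit false

namespace Pool.Agent.K9h16.AE

open Polynomial Pool.Agent.K9h16.LD

/-- The Tate conjecture for the covering `w_t ^ n_t = ∏_i F_i(x, y) ^ a_ti` in terms of
representations: let `V` and `V'` be representations of a group `G`, sums of subrepresentations
`W_j`, `W'_j` for the nontrivial characters `j`, let `φ` be an element of `G` such that the
differences of the traces of its powers on `W_j` and `W'_j` are the character sums, and such that it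
has no eigenvalue `|κ|` times a root of unity on `V'`. Then the traces of the powers of `φ` give the
numbers of points of the covering, and no nonzero vector of `V` is multiplied by a character `ε` with
`ε φ = |κ|` under a subgroup of finite index. -/
def TateFor {s r : ℕ} (n : Fin s → ℕ) (κ : Type) [Field κ] [Fintype κ] (z : κ) (E : Type) [Field E]
    (μ : E) (m m' l l' : Fin r → κ) (f : Fin r → κ[X]) (a : Fin s → Fin r → ℕ) : Prop :=
  ∀ (G : Type) [Group G] (V : Type) [AddCommGroup V] [Module E V] [FiniteDimensional E V]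
    (ρ : Representation E G V)
    (W : {j : (t : Fin s) → Fin (n t) // ∃ t, (j t : ℕ) ≠ 0} → Submodule E V)
    (_ : DirectSum.IsInternal W) (hstab : ∀ χ g, ∀ v ∈ W χ, ρ g v ∈ W χ)
    (V' : Type) [AddCommGroup V'] [Module E V'] [FiniteDimensional E V']
    (ρ' : Representation E G V')
    (W' : {j : (t : Fin s) → Fin (n t) // ∃ t, (j t : ℕ) ≠ 0} → Submodule E V')
    (_ : DirectSum.IsInternal W') (hstab' : ∀ χ g, ∀ v ∈ W' χ, ρ' g v ∈ W' χ)
    (φ : G),
    (∀ χ, HasCharTrace κ n m m' l l' f a z μ (fun t => (χ.1 t : ℕ))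
      ((ρ φ).restrict (hstab χ φ)) ((ρ' φ).restrict (hstab' χ φ))) →
    (∀ M : ℕ, 0 < M → ∀ v : V', ρ' (φ ^ M) v = (Fintype.card κ : E) ^ M • v → v = 0) →
    (∀ (L : Type) [Field L] [Fintype L] [Algebra κ L],
      LinearMap.trace E V ((ρ φ) ^ Module.finrank κ L)
          - LinearMap.trace E V' ((ρ' φ) ^ Module.finrank κ L)
        = (coverPoints L n (fun i => algebraMap κ L (m i)) (fun i => algebraMap κ L (m' i))
            (fun i => algebraMap κ L (l i)) (fun i => algebraMap κ L (l' i))
            (fun i => (f i).map (algebraMap κ L)) a : E)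
          - (Fintype.card L : E) ^ 2) ∧
    ∀ (ε : G →* E), ε φ = Fintype.card κ → ∀ (H : Subgroup G), H.FiniteIndex → ∀ v : V,
      (∀ g ∈ H, ρ g v = ε g • v) → v = 0

theorem ae_for {s r : ℕ} (hs : 0 < s) (D : ℕ) (d : Fin r → ℕ) (hd : ∀ i, d i ≤ D) (K : ℕ)
    (hK : 4 * r * (s * (D + 1) * ∑ i, max 1 (d i)) ^ 2 < K)
    (n : Fin s → ℕ) [∀ t, Fact (n t).Prime] (hinj : Function.Injective n)
    (c : ℕ) [Fact c.Prime] (hc : ∏ t, n t ∣ c - 1)
    (κ : Type) [Field κ] [Fintype κ] [CharP κ c]
    (z : κ) (hz : IsPrimitiveRoot z (∏ t, n t)) (E : Type) [Field E] [CharZero E] [IsAlgClosed E]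
    (μ : E) (hμ : IsPrimitiveRoot μ (∏ t, n t))
    (m m' l l' : Fin r → κ) (f : Fin r → κ[X])
    (hf : ∀ i, (f i).natDegree ≤ d i) (a : Fin s → Fin r → ℕ)
    (ha : ∀ t, (fun i => (a t i : ZMod (n t))) ∉ bad (n t) r K) :
    TateFor n κ z E μ m m' l l' f a := by
  unfold TateFor
  intro G _ V _ _ _ ρ W hW hstab V' _ _ _ ρ' W' hW' hstab' φ hφ hV'
  exact fin_ae hs D d hd K hK n hinj c hc κ z hz E μ hμ m m' l l' f hf a ha ρ W hW hstab ρ' W' hW'
        hstab' φ hφ hV'

end Pool.Agent.K9h16.AE
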