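import Mathlib

/-!
Simultaneously small multiples of residues without a short linear relation (the method of the Fejer
kernel).
-/

set_option autoImplicit false

namespace Pool.Agent.K9h16.AE

open Finset

section

variable {p : ℕ} [Fact p.Prime]

/-- the kernel -/
noncomputable def ker (ψ : AddChar (ZMod p) ℂ) (K : ℕ) (y : ZMod p) : ℝ :=
  ‖∑ k ∈ range K, ψ ((k : ZMod p) * y)‖ ^ 2

lemma ker_nonneg (ψ : AddChar (ZMod p) ℂ) (K : ℕ) (y : ZMod p) : 0 ≤ ker ψ K y := sq_nonneg _

lemma ker_eq (ψ : AddChar (ZMod p) ℂ) (K : ℕ) (y : ZMod p) :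
    ((ker ψ K y : ℝ) : ℂ) = ∑ q ∈ range K ×ˢ range K, ψ (((q.1 : ZMod p) - (q.2 : ZMod p)) * y) := by
  unfold ker
  rw [Complex.ofReal_pow, ← Complex.mul_conj', map_sum, sum_mul_sum, sum_product]
  refine sum_congr rfl fun k _ => sum_congr rfl fun k' _ => ?_
  rw [← AddChar.map_neg_eq_conj, ← AddChar.map_add_eq_mul]
  congr 1
  ring

/-- no short relation -/
def NoRel {ι : Type} [Fintype ι] (K : ℕ) (e : ι → ZMod p) : Prop :=
  ∀ h : ι → ℤ, (∀ i, |h i| < K) → ∑ i, (h i : ZMod p) * e i = 0 → h = 0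

lemma sum_ker (ψ : AddChar (ZMod p) ℂ) (hψ : ψ.IsPrimitive) {ι : Type} [Fintype ι]
    [DecidableEq ι] (K : ℕ) (e : ι → ZMod p) (he : NoRel K e) (w : ZMod p) :
    ∑ u : ZMod p, ∏ i, ker ψ K (u * e i - w) = p * (K : ℝ) ^ Fintype.card ι := by
  classical
  have h : ((∑ u : ZMod p, ∏ i, ker ψ K (u * e i - w) : ℝ) : ℂ)
      = ((p * (K : ℝ) ^ Fintype.card ι : ℝ) : ℂ) := by
    push_cast
    have h1 : ∀ u : ZMod p, ∏ i, ((ker ψ K (u * e i - w) : ℝ) : ℂ)
        = ∑ q ∈ Fintype.piFinset (fun _ : ι => range K ×ˢ range K),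
          ψ (- (w * ∑ i, (((q i).1 : ZMod p) - ((q i).2 : ZMod p))))
            * ψ (u * ∑ i, (((q i).1 : ZMod p) - ((q i).2 : ZMod p)) * e i) := by
      intro u
      rw [prod_congr rfl fun i _ => ker_eq ψ K (u * e i - w), Finset.prod_univ_sum]
      refine sum_congr rfl fun q _ => ?_
      have h2 : ∀ s : Finset ι, ∏ i ∈ s, ψ ((((q i).1 : ZMod p) - ((q i).2 : ZMod p)) * (u * e i - w))
          = ψ (∑ i ∈ s, (((q i).1 : ZMod p) - ((q i).2 : ZMod p)) * (u * e i - w)) := by
        intro s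
        induction s using Finset.induction_on with
        | empty => simp
        | insert b s hb ih => rw [prod_insert hb, sum_insert hb, AddChar.map_add_eq_mul, ih]
      rw [h2 univ, ← AddChar.map_add_eq_mul]
      congr 1
      rw [mul_sum, mul_sum, ← sum_neg_distrib, ← sum_add_distrib]
      refine sum_congr rfl fun i _ => ?_
      ring
    rw [sum_congr rfl fun u _ => h1 u, sum_comm]
    have h3 : ∀ q ∈ Fintype.piFinset (fun _ : ι => range K ×ˢ range K),
        ∑ u : ZMod p, ψ (- (w * ∑ i, (((q i).1 : ZMod p) - ((q i).2 : ZMod p))))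
            * ψ (u * ∑ i, (((q i).1 : ZMod p) - ((q i).2 : ZMod p)) * e i)
        = if (∀ i, (q i).1 = (q i).2) then (p : ℂ) else 0 := by
      intro q hq
      rw [Fintype.mem_piFinset] at hq
      rw [← mul_sum, AddChar.sum_mulShift _ hψ]
      have h4 : ∑ i, (((q i).1 : ZMod p) - ((q i).2 : ZMod p)) * e i = 0
          ↔ ∀ i, (q i).1 = (q i).2 := by
        refine ⟨fun h0 i => ?_, fun h0 => ?_⟩
        · have h5 := he (fun i => ((q i).1 : ℤ) - ((q i).2 : ℤ)) (fun i => by
            have h6 := mem_product.mp (hq i)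
            rw [mem_range, mem_range] at h6
            rw [abs_lt]
            constructor <;> omega) (by
            rw [← h0]
            refine sum_congr rfl fun i _ => ?_
            push_cast
            rfl)
          have h6 := congrFun h5 i
          simp only [Pi.zero_apply] at h6
          omega
        · refine sum_eq_zero fun i _ => ?_
          rw [h0 i, sub_self, zero_mul]
      by_cases h5 : ∀ i, (q i).1 = (q i).2
      · rw [if_pos h5, if_pos (h4.mpr h5)]
        have h6 : ∑ i, (((q i).1 : ZMod p) - ((q i).2 : ZMod p)) = 0 :=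
          sum_eq_zero fun i _ => by rw [h5 i, sub_self]
        rw [h6, mul_zero, neg_zero, AddChar.map_zero_eq_one, one_mul, ZMod.card]
      · rw [if_neg h5, if_neg (fun h6 => h5 (h4.mp h6)), Nat.cast_zero, mul_zero]
    rw [sum_congr rfl h3, ← sum_filter, sum_const, nsmul_eq_mul, mul_comm]
    congr 1
    have h6 : ((Fintype.piFinset (fun _ : ι => range K ×ˢ range K)).filter
        (fun q => ∀ i, (q i).1 = (q i).2))
        = (Fintype.piFinset (fun _ : ι => range K)).image (fun k i => (k i, k i)) := by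
      ext q
      simp only [mem_filter, Fintype.mem_piFinset, mem_product, mem_image]
      constructor
      · rintro ⟨h7, h8⟩
        exact ⟨fun i => (q i).1, fun i => (h7 i).1, funext fun i => Prod.ext rfl (h8 i)⟩
      · rintro ⟨k, hk, rfl⟩
        exact ⟨fun i => ⟨hk i, hk i⟩, fun i => rfl⟩
    rw [h6, card_image_of_injective _ (fun a b hab => funext fun i => by
      have := congrFun hab i
      exact (Prod.ext_iff.mp this).1), Fintype.card_piFinset]
    simp
  exact_mod_cast h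

/-- the bound away from zero -/
lemma ker_le (K : ℕ) (w : ℕ) (hw : 0 < w) (y : ZMod p) (h1 : w ≤ y.val) (h2 : y.val + w ≤ p) :
    4 * (w : ℝ) ^ 2 * ker (ZMod.stdAddChar (N := p)) K y ≤ (p : ℝ) ^ 2 := by
  have hp : (0 : ℝ) < p := by exact_mod_cast (Fact.out : p.Prime).pos
  set ψ : AddChar (ZMod p) ℂ := ZMod.stdAddChar (N := p) with hψ
  have hval : ψ y = Complex.exp (Complex.I * ((2 * Real.pi * y.val / p : ℝ) : ℂ)) := by
    have h3 : ((y.val : ℤ) : ZMod p) = y := by
      rw [Int.cast_natCast, ZMod.natCast_zmod_val]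
    rw [hψ, ← h3, ZMod.stdAddChar_coe]
    congr 1
    push_cast
    rw [ZMod.natCast_zmod_val]
    ring
  have hgeo : (∑ k ∈ range K, ψ ((k : ZMod p) * y)) * (ψ y - 1) = ψ y ^ K - 1 := by
    have h3 : ∀ k : ℕ, ψ ((k : ZMod p) * y) = ψ y ^ k := by
      intro k
      rw [← nsmul_eq_mul, AddChar.map_nsmul_eq_pow]
    rw [sum_congr rfl fun k _ => h3 k]
    exact geom_sum_mul _ _
  have hnorm : ‖ψ y‖ = 1 := AddChar.norm_apply ψ y
  have h3 : ‖∑ k ∈ range K, ψ ((k : ZMod p) * y)‖ * ‖ψ y - 1‖ ≤ 2 := by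
    rw [← norm_mul, hgeo]
    refine (norm_sub_le _ _).trans ?_
    rw [norm_pow, hnorm, one_pow, norm_one]
    norm_num
  have h4 : 4 * (w : ℝ) / p ≤ ‖ψ y - 1‖ := by
    rw [hval, Complex.norm_exp_I_mul_ofReal_sub_one, norm_mul, Real.norm_ofNat, Real.norm_eq_abs]
    have hx : 2 * Real.pi * y.val / p / 2 = Real.pi * (y.val / p) := by ring
    rw [hx]
    have hb : 2 * (w : ℝ) / p ≤ |Real.sin (Real.pi * (y.val / p))| := by
      refine le_trans ?_ (le_abs_self _)
      have hpi := Real.pi_pos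
      have hwR : (0 : ℝ) < w := by exact_mod_cast hw
      rcases le_or_gt (2 * y.val) p with h | h
      · have h5 : (2 : ℝ) * y.val ≤ p := by exact_mod_cast h
        have h6 : (w : ℝ) ≤ y.val := by exact_mod_cast h1
        have h7 := Real.mul_le_sin (x := Real.pi * (y.val / p)) (by positivity) (by
          rw [mul_div_assoc', div_le_div_iff₀ hp (by norm_num)]
          nlinarith)
        refine le_trans ?_ h7
        have h8 : 2 / Real.pi * (Real.pi * ((y.val : ℝ) / p)) = 2 * y.val / p := by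
          field_simp
        rw [h8]
        gcongr
      · have h5 : (p : ℝ) < 2 * y.val := by exact_mod_cast h
        have h6 : (y.val : ℝ) + w ≤ p := by exact_mod_cast h2
        rw [← Real.sin_pi_sub]
        have h9 : Real.pi - Real.pi * ((y.val : ℝ) / p) = Real.pi * ((p - y.val) / p) := by
          field_simp
        rw [h9]
        have h10 : (0 : ℝ) ≤ p - y.val := by linarith
        have h7 := Real.mul_le_sin (x := Real.pi * ((p - y.val) / p)) (by positivity) (by
          rw [mul_div_assoc', div_le_div_iff₀ hp (by norm_num)]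
          nlinarith)
        refine le_trans ?_ h7
        have h8 : 2 / Real.pi * (Real.pi * (((p : ℝ) - y.val) / p)) = 2 * (p - y.val) / p := by
          field_simp
        rw [h8]
        gcongr
        linarith
    calc 4 * (w : ℝ) / p = 2 * (2 * (w : ℝ) / p) := by ring
      _ ≤ _ := by gcongr
  unfold ker
  have h5 : ‖∑ k ∈ range K, ψ ((k : ZMod p) * y)‖ * (4 * (w : ℝ) / p) ≤ 2 :=
    le_trans (mul_le_mul_of_nonneg_left h4 (norm_nonneg _)) h3
  have h6 : 2 * (w : ℝ) * ‖∑ k ∈ range K, ψ ((k : ZMod p) * y)‖ ≤ p := by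
    rw [mul_div_assoc', div_le_iff₀ hp] at h5
    linarith
  calc 4 * (w : ℝ) ^ 2 * ‖∑ k ∈ range K, ψ ((k : ZMod p) * y)‖ ^ 2
      = (2 * (w : ℝ) * ‖∑ k ∈ range K, ψ ((k : ZMod p) * y)‖) ^ 2 := by ring
    _ ≤ (p : ℝ) ^ 2 := by
        refine pow_le_pow_left₀ (by positivity) h6 2

lemma norel_sub {ι : Type} [Fintype ι] [DecidableEq ι] {K : ℕ} (hK : 0 < K) {e : ι → ZMod p}
    (he : NoRel K e) (i0 : ι) : NoRel K (fun i : {i // i ≠ i0} => e i.1) := by
  classical
  intro h hh h0
  have h1 := he (fun i => if hi : i ≠ i0 then h ⟨i, hi⟩ else 0) (fun i => by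
    by_cases hi : i ≠ i0
    · simp only [hi, ne_eq, not_false_eq_true, dite_true]
      exact hh _
    · simp only [hi, dite_false, abs_zero]
      exact_mod_cast hK) (by
    rw [← h0]
    have h2 : ∑ i, (((if hi : i ≠ i0 then h ⟨i, hi⟩ else 0 : ℤ)) : ZMod p) * e i
        = ∑ i with i ≠ i0, (((if hi : i ≠ i0 then h ⟨i, hi⟩ else 0 : ℤ)) : ZMod p) * e i := by
      rw [sum_filter]
      refine sum_congr rfl fun i _ => ?_
      by_cases hi : i ≠ i0
      · rw [if_pos hi]
      · rw [if_neg hi, dif_neg hi]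
        simp
    rw [h2, sum_subtype (univ.filter fun i => i ≠ i0) (p := fun i => i ≠ i0) (by intro i; simp)
      (fun i => (((if hi : i ≠ i0 then h ⟨i, hi⟩ else 0 : ℤ)) : ZMod p) * e i)]
    refine sum_congr rfl fun i _ => ?_
    rw [dif_pos i.2])
  funext i
  have h3 := congrFun h1 i.1
  simp only [Pi.zero_apply] at h3
  rw [dif_pos i.2] at h3
  exact h3

/-- simultaneously small multiples -/
theorem small_mul {ι : Type} [Fintype ι] [DecidableEq ι] {K : ℕ} (w : ℕ) (hw : 0 < w)
    (hwp : 2 * w ≤ p) (hK : (Fintype.card ι : ℝ) * p ^ 2 < 4 * (w : ℝ) ^ 2 * K) (e : ι → ZMod p)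
    (he : NoRel K e) : ∃ u : ZMod p, ∀ i, 0 < (u * e i).val ∧ (u * e i).val < 2 * w := by
  classical
  by_contra hcon
  push Not at hcon
  have hpp := (Fact.out : p.Prime).pos
  have hp : (0 : ℝ) < p := by exact_mod_cast hpp
  have hwR : (0 : ℝ) < w := by exact_mod_cast hw
  have hK0 : 0 < K := by
    rcases Nat.eq_zero_or_pos K with h | h
    · subst h
      simp only [Nat.cast_zero, mul_zero] at hK
      exact absurd hK (not_lt.mpr (by positivity))
    · exact h
  have hKR : (0 : ℝ) < K := by exact_mod_cast hK0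
  set ψ : AddChar (ZMod p) ℂ := ZMod.stdAddChar (N := p) with hψ
  have hprim : ψ.IsPrimitive := ZMod.isPrimitive_stdAddChar p
  have h1 := sum_ker ψ hprim K e he (w : ZMod p)
  -- the points outside
  have hout : ∀ (u : ZMod p) (i : ι), (0 < (u * e i).val → 2 * w ≤ (u * e i).val) →
      4 * (w : ℝ) ^ 2 * ker ψ K (u * e i - w) ≤ (p : ℝ) ^ 2 := by
    intro u i hu
    set v := (u * e i).val with hv
    have hvp : v < p := ZMod.val_lt _
    have huv : u * e i = ((v : ℕ) : ZMod p) := (ZMod.natCast_zmod_val _).symm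
    rcases Nat.eq_zero_or_pos v with h0 | h0
    · have h2 : u * e i - (w : ZMod p) = ((p - w : ℕ) : ZMod p) := by
        rw [huv, h0, Nat.cast_sub (by omega), ZMod.natCast_self, Nat.cast_zero]
      have h3 : (u * e i - (w : ZMod p)).val = p - w := by
        rw [h2, ZMod.val_natCast, Nat.mod_eq_of_lt (by omega)]
      exact ker_le K w hw _ (by omega) (by omega)
    · have h4 := hu h0
      have h2 : u * e i - (w : ZMod p) = ((v - w : ℕ) : ZMod p) := by
        rw [huv, Nat.cast_sub (by omega)]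
      have h3 : (u * e i - (w : ZMod p)).val = v - w := by
        rw [h2, ZMod.val_natCast, Nat.mod_eq_of_lt (by omega)]
      exact ker_le K w hw _ (by omega) (by omega)
  have h2 : ∀ u : ZMod p, 4 * (w : ℝ) ^ 2 * ∏ i, ker ψ K (u * e i - w)
      ≤ ∑ i0, (p : ℝ) ^ 2 * ∏ i : {i // i ≠ i0}, ker ψ K (u * e i.1 - w) := by
    intro u
    obtain ⟨i0, hi0⟩ := hcon u
    refine le_trans ?_ (single_le_sum (f := fun i0 => (p : ℝ) ^ 2 *
      ∏ i : {i // i ≠ i0}, ker ψ K (u * e i.1 - w)) (fun i0 _ => mul_nonneg (by positivity)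
        (prod_nonneg fun i _ => ker_nonneg _ _ _)) (mem_univ i0))
    have h3 : ∏ i, ker ψ K (u * e i - w)
        = ker ψ K (u * e i0 - w) * ∏ i : {i // i ≠ i0}, ker ψ K (u * e i.1 - w) := by
      rw [← mul_prod_erase univ _ (mem_univ i0)]
      congr 1
      rw [← prod_subtype (univ.erase i0) (p := fun i => i ≠ i0) (by intro i; simp)
        (fun i => ker ψ K (u * e i - w))]
    rw [h3, ← mul_assoc]
    exact mul_le_mul_of_nonneg_right (hout u i0 hi0) (prod_nonneg fun i _ => ker_nonneg _ _ _)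
  have h3 := sum_le_sum fun u (_ : u ∈ (univ : Finset (ZMod p))) => h2 u
  rw [← mul_sum, h1, sum_comm] at h3
  have h4 : ∀ i0 : ι, ∑ u : ZMod p, (p : ℝ) ^ 2 * ∏ i : {i // i ≠ i0}, ker ψ K (u * e i.1 - w)
      = (p : ℝ) ^ 2 * (p * (K : ℝ) ^ (Fintype.card ι - 1)) := by
    intro i0
    rw [← mul_sum, sum_ker ψ hprim K _ (norel_sub hK0 he i0) w]
    congr 3
    rw [Fintype.card_subtype_compl, Fintype.card_subtype_eq]
  rw [sum_congr rfl fun i0 _ => h4 i0, sum_const, card_univ, nsmul_eq_mul] at h3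
  rcases Nat.eq_zero_or_pos (Fintype.card ι) with h5 | h5
  · rw [h5] at h3
    simp only [pow_zero, mul_one, Nat.cast_zero, zero_mul] at h3
    have : 0 < 4 * (w : ℝ) ^ 2 * p := by positivity
    linarith
  · obtain ⟨r, hr⟩ : ∃ r, Fintype.card ι = r + 1 := ⟨Fintype.card ι - 1, by omega⟩
    rw [hr] at h3 hK
    simp only [Nat.add_sub_cancel] at h3
    have h6 : (((r + 1 : ℕ) : ℝ) * p ^ 2) * (p * (K : ℝ) ^ r)
        < (4 * (w : ℝ) ^ 2 * K) * (p * (K : ℝ) ^ r) :=
      mul_lt_mul_of_pos_right hK (by positivity)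
    have h7 : 4 * (w : ℝ) ^ 2 * (p * (K : ℝ) ^ (r + 1))
        = (4 * (w : ℝ) ^ 2 * K) * (p * (K : ℝ) ^ r) := by ring
    rw [h7] at h3
    have h8 : ((r + 1 : ℕ) : ℝ) * (p ^ 2 * (p * (K : ℝ) ^ r))
        = (((r + 1 : ℕ) : ℝ) * p ^ 2) * (p * (K : ℝ) ^ r) := by ring
    rw [h8] at h3
    exact absurd h3 (not_le.mpr h6)

end

end Pool.Agent.K9h16.AE
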