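import Pool.Agent.K9h16.LD.Main
import Pool.Agent.K9h16.AE.Cnt

/-!
The final theorem under the hypothesis that each character has a conjugate with small exponents.
-/

set_option autoImplicit false

namespace Pool.Agent.K9h16.AE

open Finset Polynomial Pool.Agent.W528.HA Pool.Agent.W528.HB Pool.Agent.W528.HC
  Pool.Agent.W528.HD Pool.Agent.W528.HF Pool.Agent.K9h16.LD

theorem fin_gen {s r : ℕ} (hs : 0 < s) (n : Fin s → ℕ) (hn : ∀ t, 2 ≤ n t)
    (c : ℕ) [Fact c.Prime] (hc : ∏ t, n t ∣ c - 1)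
    (κ : Type) [Field κ] [Fintype κ] [CharP κ c]
    (z : κ) (hz : IsPrimitiveRoot z (∏ t, n t)) (E : Type) [Field E] [CharZero E] [IsAlgClosed E]
    (μ : E) (hμ : IsPrimitiveRoot μ (∏ t, n t))
    (m m' l l' : Fin r → κ) (f : Fin r → κ[X]) (D : ℕ) (d : Fin r → ℕ)
    (hf : ∀ i, (f i).natDegree ≤ d i) (hd : ∀ i, d i ≤ D) (a : Fin s → Fin r → ℕ)
    (ha1 : ∀ j : (t : Fin s) → Fin (n t), ∀ i, EE n (fun t => (j t : ℕ)) (fun t => a t i) ≠ 0 →
      ¬ (∏ t, n t) ∣ EE n (fun t => (j t : ℕ)) (fun t => a t i))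
    (ha2 : ∀ j : (t : Fin s) → Fin (n t), ∃ j' : ℕ, j'.Coprime (∏ t, n t) ∧
      (D + 1) * ∑ i, max 1 (d i) * ((j' * EE n (fun t => (j t : ℕ)) (fun t => a t i)) % ∏ t, n t)
        < ∏ t, n t)
    {G : Type} [Group G] {V : Type} [AddCommGroup V] [Module E V] [FiniteDimensional E V]
    (ρ : Representation E G V)
    (W : {j : (t : Fin s) → Fin (n t) // ∃ t, (j t : ℕ) ≠ 0} → Submodule E V)
    (hW : DirectSum.IsInternal W) (hstab : ∀ χ g, ∀ v ∈ W χ, ρ g v ∈ W χ)
    {V' : Type} [AddCommGroup V'] [Module E V'] [FiniteDimensional E V']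
    (ρ' : Representation E G V')
    (W' : {j : (t : Fin s) → Fin (n t) // ∃ t, (j t : ℕ) ≠ 0} → Submodule E V')
    (hW' : DirectSum.IsInternal W') (hstab' : ∀ χ g, ∀ v ∈ W' χ, ρ' g v ∈ W' χ)
    (φ : G) (hφ : ∀ χ, HasCharTrace κ n m m' l l' f a z μ (fun t => (χ.1 t : ℕ))
      ((ρ φ).restrict (hstab χ φ)) ((ρ' φ).restrict (hstab' χ φ)))
    (hV' : ∀ M : ℕ, 0 < M → ∀ v : V', ρ' (φ ^ M) v = (Fintype.card κ : E) ^ M • v → v = 0) :
    (∀ (L : Type) [Field L] [Fintype L] [Algebra κ L],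
      LinearMap.trace E V ((ρ φ) ^ Module.finrank κ L)
          - LinearMap.trace E V' ((ρ' φ) ^ Module.finrank κ L)
        = (coverPoints L n (fun i => algebraMap κ L (m i)) (fun i => algebraMap κ L (m' i))
            (fun i => algebraMap κ L (l i)) (fun i => algebraMap κ L (l' i))
            (fun i => (f i).map (algebraMap κ L)) a : E)
          - (Fintype.card L : E) ^ 2) ∧
    ∀ (ε : G →* E), ε φ = Fintype.card κ → ∀ (H : Subgroup G), H.FiniteIndex → ∀ v : V,
      (∀ g ∈ H, ρ g v = ε g • v) → v = 0 := by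
  classical
  have hcp : c.Prime := Fact.out
  obtain ⟨F, hF0, hF⟩ := FiniteField.card κ c
  have hN := pos_N hn
  have hN2 : 2 ≤ ∏ t, n t := by
    have t0 : Fin s := ⟨0, hs⟩
    exact le_trans (hn t0) (Nat.le_of_dvd hN (dvd_prod_of_mem n (mem_univ t0)))
  refine ⟨?_, ?_⟩
  · intro L _ _ _
    have hzL : IsPrimitiveRoot (algebraMap κ L z) (∏ t, n t) :=
      hz.map_of_injective (algebraMap κ L).injective
    have hpt := ncard_cov (L := L) hs hn hzL hμ
      (fun t x y => ∏ i, PP (fun i => algebraMap κ L (m i)) (fun i => algebraMap κ L (m' i))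
            (fun i => algebraMap κ L (l i)) (fun i => algebraMap κ L (l' i))
            (fun i => (f i).map (algebraMap κ L)) i x y ^ a t i)
    unfold coverPoints
    rw [hpt, add_sub_cancel_left, trace_parts ρ W hW hstab φ, trace_parts ρ' W' hW' hstab' φ,
      ← sum_sub_distrib]
    exact sum_congr rfl fun χ _ => hφ χ L
  · intro ε hε H hH v hv
    refine decomp ρ W hW hstab φ (Fintype.card κ : E) ?_ ε hε H hH v hv
    intro χ M hM w hw
    obtain ⟨j', hj', hle⟩ := ha2 χ.1
    refine cv_op (c := c) hN2 hc κ hF hz hμ m m' l l' f hf hd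
      (fun i => EE n (fun t => (χ.1 t : ℕ)) (fun t => a t i)) (ha1 χ.1) hj' hle
      ((ρ φ).restrict (hstab χ φ)) ((ρ' φ).restrict (hstab' χ φ)) ?_ ?_ M hM w hw
    · intro L _ _ _
      rw [hφ χ L, charSum_eq]
    · intro M' hM' v' hv'
      have h2 : ∀ (k : ℕ) (v : W' χ),
          ((((ρ' φ).restrict (hstab' χ φ)) ^ k) v : V') = (ρ' φ ^ k) (v : V') := by
        intro k
        induction k with
        | zero => intro v; rfl
        | succ k ih =>
          intro v
          rw [pow_succ, Module.End.mul_apply, ih, pow_succ, Module.End.mul_apply]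
          rfl
      have h3 := hV' M' hM' (v' : V') (by
        rw [map_pow, ← h2, hv']
        rfl)
      exact Subtype.ext h3

/-- the choice of a multiplier modulo one prime -/
theorem one_prime {p : ℕ} [Fact p.Prime] {r K M : ℕ} (hM : 0 < M) (hK : 4 * r * M ^ 2 < K)
    (a : Fin r → ℕ) (ha : NoRel K (fun i => (a i : ZMod p))) (j : ℕ) (hj : j < p) :
    ∃ U : ℕ, U.Coprime p ∧ ∃ v : Fin r → ℕ,
      ∀ i, U * (j * a i) ≡ v i [MOD p] ∧ v i * M < p := by
  classical
  have hpr : p.Prime := Fact.out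
  have hpp := hpr.pos
  rcases Nat.eq_zero_or_pos j with hj0 | hj0
  · refine ⟨1, Nat.coprime_one_left p, fun _ => 0, fun i => ?_⟩
    rw [hj0, zero_mul, mul_zero, zero_mul]
    exact ⟨Nat.ModEq.refl _, hpp⟩
  rcases Nat.eq_zero_or_pos r with hr | hr
  · subst hr
    exact ⟨1, Nat.coprime_one_left p, fun _ => 0, fun i => i.elim0⟩
  -- the prime is large
  have hKp : K ≤ p := by
    by_contra hcon
    have h1 := ha (Pi.single ⟨0, hr⟩ (p : ℤ)) (fun i => by
      by_cases hi : i = ⟨0, hr⟩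
      · subst hi
        rw [Pi.single_eq_same, Nat.abs_cast]
        exact_mod_cast (by omega : p < K)
      · rw [Pi.single_eq_of_ne hi, abs_zero]
        have : 0 < K := by omega
        exact_mod_cast this) (by
      refine sum_eq_zero fun i _ => ?_
      by_cases hi : i = ⟨0, hr⟩
      · subst hi
        rw [Pi.single_eq_same, Int.cast_natCast, ZMod.natCast_self, zero_mul]
      · rw [Pi.single_eq_of_ne hi, Int.cast_zero, zero_mul])
    have h2 := congrFun h1 ⟨0, hr⟩
    rw [Pi.single_eq_same, Pi.zero_apply] at h2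
    have : p = 0 := by exact_mod_cast h2
    omega
  have hM2 : M ≤ M ^ 2 := Nat.le_self_pow (by norm_num) M
  have hpM : 4 * M ≤ p := by
    have h1 : 4 * M ^ 2 ≤ 4 * r * M ^ 2 := by
      apply Nat.mul_le_mul_right
      omega
    omega
  set w := p / (2 * M) with hw
  have hw1 : 2 * M * w ≤ p := Nat.mul_div_le p (2 * M)
  have hw2 : p < 2 * M * w + 2 * M := by
    have := Nat.lt_mul_div_succ p (show 0 < 2 * M by omega)
    rw [← hw] at this
    rw [mul_add, mul_one] at this
    exact this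
  have hw0 : 0 < w := by
    rcases Nat.eq_zero_or_pos w with h | h
    · rw [h] at hw2
      omega
    · exact h
  have hw3 : p < 4 * M * w := by
    have e1 : 4 * M * w = 2 * (2 * M * w) := by ring
    omega
  have hwp : 2 * w ≤ p := by
    refine le_trans ?_ hw1
    calc 2 * w = 2 * 1 * w := by ring
      _ ≤ 2 * M * w := Nat.mul_le_mul_right _ (Nat.mul_le_mul_left _ hM)
  have hineq : r * p ^ 2 < 4 * w ^ 2 * K := by
    calc r * p ^ 2 ≤ r * (4 * M * w) ^ 2 :=
          Nat.mul_le_mul_left _ (Nat.pow_le_pow_left hw3.le 2)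
      _ = 4 * w ^ 2 * (4 * r * M ^ 2) := by ring
      _ < 4 * w ^ 2 * K := Nat.mul_lt_mul_of_pos_left hK (by positivity)
  obtain ⟨u, hu⟩ := small_mul (K := K) w hw0 hwp (by
    rw [Fintype.card_fin]
    exact_mod_cast hineq) (fun i => (a i : ZMod p)) ha
  have hu0 : u ≠ 0 := by
    intro h
    have := (hu ⟨0, hr⟩).1
    rw [h, zero_mul, ZMod.val_zero] at this
    omega
  have hjz : (j : ZMod p) ≠ 0 := by
    rw [Ne, ZMod.natCast_eq_zero_iff]
    exact fun h => absurd (Nat.le_of_dvd hj0 h) (by omega)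
  refine ⟨(u * (j : ZMod p)⁻¹).val, ?_, fun i => (u * (a i : ZMod p)).val, fun i => ⟨?_, ?_⟩⟩
  · have h1 : (u * (j : ZMod p)⁻¹) ≠ 0 := mul_ne_zero hu0 (inv_ne_zero hjz)
    rw [Nat.coprime_comm, hpr.coprime_iff_not_dvd]
    intro hd
    have h2 : (u * (j : ZMod p)⁻¹).val ≠ 0 := by
      rwa [Ne, ZMod.val_eq_zero]
    exact absurd (Nat.le_of_dvd (Nat.pos_of_ne_zero h2) hd) (by
      have := ZMod.val_lt (u * (j : ZMod p)⁻¹)
      omega)
  · rw [← ZMod.natCast_eq_natCast_iff]
    push_cast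
    rw [ZMod.natCast_zmod_val, ZMod.natCast_zmod_val]
    field_simp
  · have h1 := (hu i).2
    have h2 : (u * (a i : ZMod p)).val * M < 2 * w * M := Nat.mul_lt_mul_of_pos_right h1 hM
    have h3 : 2 * w * M = 2 * M * w := by ring
    show (u * (a i : ZMod p)).val * M < p
    omega

/-- the choice of a conjugate character -/
theorem conj_ae {s r D K : ℕ} (hs : 0 < s) (d : Fin r → ℕ) (n : Fin s → ℕ)
    [∀ t, Fact (n t).Prime] (hinj : Function.Injective n)
    (hK : 4 * r * (s * (D + 1) * ∑ i, max 1 (d i)) ^ 2 < K)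
    (a : Fin s → Fin r → ℕ) (ha : ∀ t, NoRel K (fun i => (a t i : ZMod (n t))))
    (j : (t : Fin s) → Fin (n t)) :
    ∃ j' : ℕ, j'.Coprime (∏ t, n t) ∧
      (D + 1) * ∑ i, max 1 (d i) * ((j' * EE n (fun t => (j t : ℕ)) (fun t => a t i)) % ∏ t, n t)
        < ∏ t, n t := by
  classical
  have hn : ∀ t, 2 ≤ n t := fun t => (Fact.out : (n t).Prime).two_le
  have hN := pos_N hn
  rcases Nat.eq_zero_or_pos r with hr | hr
  · subst hr
    refine ⟨1, Nat.coprime_one_left _, ?_⟩
    simpa using hN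
  have hS1 : 0 < ∑ i, max 1 (d i) :=
    sum_pos (fun i _ => lt_of_lt_of_le one_pos (le_max_left _ _)) ⟨⟨0, hr⟩, mem_univ _⟩
  set M := s * (D + 1) * ∑ i, max 1 (d i) with hMdef
  have hM : 0 < M := Nat.mul_pos (Nat.mul_pos hs (by omega)) hS1
  choose U hU v hv using fun t => one_prime hM hK (a t) (ha t) (j t : ℕ) (j t).2
  have hco : Pairwise (Function.onFun Nat.Coprime n) := by
    intro t t' htt
    exact (Nat.coprime_primes (Fact.out) (Fact.out)).mpr fun h => htt (hinj h)
  obtain ⟨j', hj'⟩ := Nat.chineseRemainderOfFinset U n univ (fun t _ => by have := hn t; omega)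
    (fun t _ t' _ h => hco h)
  have hjt : ∀ t, j' ≡ U t [MOD n t] := fun t => hj' t (mem_univ t)
  refine ⟨j', Nat.Coprime.prod_right fun t _ =>
    Pool.Agent.W816.HI.AT.coprime_of_modEq (hjt t) (hU t), ?_⟩
  have hle : ∀ i, (j' * EE n (fun t => (j t : ℕ)) (fun t => a t i)) % (∏ t, n t)
      ≤ ∑ t, (∏ t, n t) / n t * v t i := by
    intro i
    have h1 : j' * EE n (fun t => (j t : ℕ)) (fun t => a t i)
        ≡ ∑ t, (∏ t, n t) / n t * v t i [MOD ∏ t, n t] := by
      unfold EE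
      rw [mul_sum]
      have h2 : ∀ t ∈ univ, j' * ((∏ t, n t) / n t * ((j t : ℕ) * a t i))
          ≡ (∏ t, n t) / n t * v t i [MOD ∏ t, n t] := by
        intro t _
        have h3 : j' * ((j t : ℕ) * a t i) ≡ v t i [MOD n t] :=
          ((hjt t).mul_right _).trans (hv t i).1
        have h4 := h3.mul_left' ((∏ t, n t) / n t)
        rw [div_mul hn t] at h4
        have h5 : j' * ((∏ t, n t) / n t * ((j t : ℕ) * a t i))
            = (∏ t, n t) / n t * (j' * ((j t : ℕ) * a t i)) := by ring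
        rw [h5]
        exact h4
      have key : ∀ s' : Finset (Fin s), ∑ t ∈ s', j' * ((∏ t, n t) / n t * ((j t : ℕ) * a t i))
          ≡ ∑ t ∈ s', (∏ t, n t) / n t * v t i [MOD ∏ t, n t] := by
        intro s'
        induction s' using Finset.induction_on with
        | empty => simp [Nat.ModEq]
        | insert b s' hb ih =>
          rw [sum_insert hb, sum_insert hb]
          exact (h2 b (mem_univ b)).add ih
      exact key univ
    rw [h1]
    exact Nat.mod_le _ _
  have hsmall : ∀ t i, (∏ t, n t) / n t * v t i * M < ∏ t, n t := by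
    intro t i
    calc (∏ t, n t) / n t * v t i * M = (∏ t, n t) / n t * (v t i * M) := by ring
      _ < (∏ t, n t) / n t * n t := Nat.mul_lt_mul_of_pos_left (hv t i).2 (div_pos hn t)
      _ = ∏ t, n t := div_mul hn t
  refine lt_of_le_of_lt (Nat.mul_le_mul_left _ (sum_le_sum fun i _ =>
    Nat.mul_le_mul_left _ (hle i))) ?_
  refine Nat.lt_of_mul_lt_mul_left (a := M) ?_
  calc M * ((D + 1) * ∑ i, max 1 (d i) * ∑ t, (∏ t, n t) / n t * v t i)
      = ∑ i, ∑ t, ((D + 1) * max 1 (d i)) * ((∏ t, n t) / n t * v t i * M) := by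
        rw [mul_sum, mul_sum]
        refine sum_congr rfl fun i _ => ?_
        rw [mul_sum, mul_sum, mul_sum]
        refine sum_congr rfl fun t _ => ?_
        ring
    _ < ∑ i : Fin r, ∑ t : Fin s, ((D + 1) * max 1 (d i)) * ∏ t, n t := by
        refine sum_lt_sum_of_nonempty ⟨⟨0, hr⟩, mem_univ _⟩ fun i _ => ?_
        refine sum_lt_sum_of_nonempty ⟨⟨0, hs⟩, mem_univ _⟩ fun t _ => ?_
        refine Nat.mul_lt_mul_of_pos_left (hsmall t i) ?_
        exact Nat.mul_pos (by omega) (lt_of_lt_of_le one_pos (le_max_left _ _))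
    _ = M * ∏ t, n t := by
        simp only [sum_const, card_univ, Fintype.card_fin, smul_eq_mul]
        rw [hMdef, ← mul_sum]
        have e1 : ∑ i, (D + 1) * max 1 (d i) * ∏ t, n t
            = ((D + 1) * ∑ i, max 1 (d i)) * ∏ t, n t := by
          rw [mul_sum, sum_mul]
        rw [e1]
        ring

theorem fin_ae {s r : ℕ} (hs : 0 < s) (D : ℕ) (d : Fin r → ℕ) (hd : ∀ i, d i ≤ D) (K : ℕ)
    (hK : 4 * r * (s * (D + 1) * ∑ i, max 1 (d i)) ^ 2 < K)
    (n : Fin s → ℕ) [∀ t, Fact (n t).Prime] (hinj : Function.Injective n)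
    (c : ℕ) [Fact c.Prime] (hc : ∏ t, n t ∣ c - 1)
    (κ : Type) [Field κ] [Fintype κ] [CharP κ c]
    (z : κ) (hz : IsPrimitiveRoot z (∏ t, n t)) (E : Type) [Field E] [CharZero E] [IsAlgClosed E]
    (μ : E) (hμ : IsPrimitiveRoot μ (∏ t, n t))
    (m m' l l' : Fin r → κ) (f : Fin r → κ[X])
    (hf : ∀ i, (f i).natDegree ≤ d i) (a : Fin s → Fin r → ℕ)
    (ha : ∀ t, (fun i => (a t i : ZMod (n t))) ∉ bad (n t) r K)
    {G : Type} [Group G] {V : Type} [AddCommGroup V] [Module E V] [FiniteDimensional E V]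
    (ρ : Representation E G V)
    (W : {j : (t : Fin s) → Fin (n t) // ∃ t, (j t : ℕ) ≠ 0} → Submodule E V)
    (hW : DirectSum.IsInternal W) (hstab : ∀ χ g, ∀ v ∈ W χ, ρ g v ∈ W χ)
    {V' : Type} [AddCommGroup V'] [Module E V'] [FiniteDimensional E V']
    (ρ' : Representation E G V')
    (W' : {j : (t : Fin s) → Fin (n t) // ∃ t, (j t : ℕ) ≠ 0} → Submodule E V')
    (hW' : DirectSum.IsInternal W') (hstab' : ∀ χ g, ∀ v ∈ W' χ, ρ' g v ∈ W' χ)
    (φ : G) (hφ : ∀ χ, HasCharTrace κ n m m' l l' f a z μ (fun t => (χ.1 t : ℕ))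
      ((ρ φ).restrict (hstab χ φ)) ((ρ' φ).restrict (hstab' χ φ)))
    (hV' : ∀ M : ℕ, 0 < M → ∀ v : V', ρ' (φ ^ M) v = (Fintype.card κ : E) ^ M • v → v = 0) :
    (∀ (L : Type) [Field L] [Fintype L] [Algebra κ L],
      LinearMap.trace E V ((ρ φ) ^ Module.finrank κ L)
          - LinearMap.trace E V' ((ρ' φ) ^ Module.finrank κ L)
        = (coverPoints L n (fun i => algebraMap κ L (m i)) (fun i => algebraMap κ L (m' i))
            (fun i => algebraMap κ L (l i)) (fun i => algebraMap κ L (l' i))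
            (fun i => (f i).map (algebraMap κ L)) a : E)
          - (Fintype.card L : E) ^ 2) ∧
    ∀ (ε : G →* E), ε φ = Fintype.card κ → ∀ (H : Subgroup G), H.FiniteIndex → ∀ v : V,
      (∀ g ∈ H, ρ g v = ε g • v) → v = 0 := by
  classical
  have hn : ∀ t, 2 ≤ n t := fun t => (Fact.out : (n t).Prime).two_le
  have hco : Pairwise (Function.onFun Nat.Coprime n) := by
    intro t t' htt
    exact (Nat.coprime_primes (Fact.out) (Fact.out)).mpr fun h => htt (hinj h)
  have ha' : ∀ t, NoRel K (fun i => (a t i : ZMod (n t))) := by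
    intro t
    have h1 := ha t
    unfold bad at h1
    rw [mem_filter] at h1
    by_contra hcon
    exact h1 ⟨mem_univ _, hcon⟩
  refine fin_gen hs n hn c hc κ z hz E μ hμ m m' l l' f D d hf hd a ?_
    (fun j => conj_ae hs d n hinj hK a ha' j) ρ W hW hstab ρ' W' hW' hstab' φ hφ hV'
  intro j i hi
  refine EE_zero hn hco _ _ (fun t => (j t).2) (fun t => ?_) hi
  right
  rw [Nat.coprime_comm, (Fact.out : (n t).Prime).coprime_iff_not_dvd]
  intro hd'
  have h0 : ((a t i : ℕ) : ZMod (n t)) = 0 := (ZMod.natCast_eq_zero_iff _ _).mpr hd'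
  have hr : 0 < r := lt_of_le_of_lt (Nat.zero_le _) i.2
  have hS1 : 0 < ∑ i, max 1 (d i) :=
    sum_pos (fun i _ => lt_of_lt_of_le one_pos (le_max_left _ _)) ⟨⟨0, hr⟩, mem_univ _⟩
  have hM : 0 < s * (D + 1) * ∑ i, max 1 (d i) := Nat.mul_pos (Nat.mul_pos hs (by omega)) hS1
  have hK1 : 1 < K := by
    have : 0 < 4 * r * (s * (D + 1) * ∑ i, max 1 (d i)) ^ 2 := by positivity
    omega
  have h1 := ha' t (Pi.single i 1) (fun i' => by
    by_cases hi' : i' = i
    · subst hi'
      rw [Pi.single_eq_same, abs_one]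
      exact_mod_cast hK1
    · rw [Pi.single_eq_of_ne hi', abs_zero]
      exact_mod_cast (by omega : 0 < K)) (by
    refine sum_eq_zero fun i' _ => ?_
    by_cases hi' : i' = i
    · subst hi'
      show (_ : ZMod (n t)) * ((a t i' : ℕ) : ZMod (n t)) = 0
      rw [h0, mul_zero]
    · rw [Pi.single_eq_of_ne hi', Int.cast_zero, zero_mul])
  have h2 := congrFun h1 i
  rw [Pi.single_eq_same, Pi.zero_apply] at h2
  exact one_ne_zero h2

end Pool.Agent.K9h16.AE
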